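import Pool.Agent.TH535.Expl7
import Pool.Agent.H306R2.EvenConst

set_option autoImplicit false

/-!
Explicit unconditional lower bounds for the `2k`-th moment of zeta on the critical line for every
integer `k ≥ 5`, on `[0, T]` and on all intervals `[T, T + U]`, `U ≥ (log T) ^ B`.
-/

open Filter

theorem Pool.Agent.Results.MP_80d0cf_nt.ExplicitAllK.result (k : ℕ) (hk : 5 ≤ k) :
    (∀ᶠ T : ℝ in atTop,
      max ((4 / 3) ^ (3 * (k : ℝ) ^ 2 / 2) / (2 * (k : ℝ)) ^ 4)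
          ((2 ^ 38 / 5 ^ 15) ^ ((k : ℝ) ^ 2 / 4) / (k : ℝ) ^ 16) *
        ((∏' p : Nat.Primes, ((1 - 1 / (p : ℝ)) ^ (k ^ 2) *
          ∑' m : ℕ, ((m + k - 1).choose m : ℝ) ^ 2 * (1 / (p : ℝ)) ^ m)) /
            ((k ^ 2).factorial : ℝ)) * Real.log T ^ (k ^ 2) ≤
      1 / T * ∫ t in (0:ℝ)..T, ‖riemannZeta (1 / 2 + t * Complex.I)‖ ^ (2 * k)) ∧
    (∃ B : ℝ, 0 < B ∧ ∀ᶠ T : ℝ in atTop, ∀ U : ℝ, Real.log T ^ B ≤ U →
      max ((4 / 3) ^ (3 * (k : ℝ) ^ 2 / 2) / (2 * (k : ℝ)) ^ 4)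
          ((2 ^ 38 / 5 ^ 15) ^ ((k : ℝ) ^ 2 / 4) / (k : ℝ) ^ 16) *
        ((∏' p : Nat.Primes, ((1 - 1 / (p : ℝ)) ^ (k ^ 2) *
          ∑' m : ℕ, ((m + k - 1).choose m : ℝ) ^ 2 * (1 / (p : ℝ)) ^ m)) /
            ((k ^ 2).factorial : ℝ)) * Real.log U ^ (k ^ 2) ≤
      1 / U * ∫ t in T..(T + U), ‖riemannZeta (1 / 2 + t * Complex.I)‖ ^ (2 * k)) := by
  obtain ⟨n, j, q, hA, hc⟩ := Pool.Agent.TH535.explK k hk
  have hk0 : (0 : ℝ) < k := by exact_mod_cast (by omega : 0 < k)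
  have e2 : ((k : ℝ) ^ 2) = ((k ^ 2 : ℕ) : ℝ) := by push_cast; ring
  have e3 : Real.Gamma ((k : ℝ) ^ 2 + 1) = ((k ^ 2).factorial : ℝ) := by
    rw [e2, Real.Gamma_nat_eq_factorial]
  have e4 : ∀ x : ℝ, x ^ (2 * (k : ℝ)) = x ^ (2 * k) := by
    intro x
    rw [← Real.rpow_natCast]
    push_cast
    rfl
  have e5 : ∀ x : ℝ, x ^ ((k : ℝ) ^ 2) = x ^ (k ^ 2) := by
    intro x
    rw [e2, Real.rpow_natCast]
  rw [e3, Pool.Agent.H306R2.aF_nat k (by omega)] at hc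
  rw [← Pool.Agent.H306R2.aF_nat k (by omega)] at hc ⊢
  constructor
  · have h := Pool.Agent.TH535.masterN (k : ℝ) hk0 j q _ hA _ hc
    simp only [e4, e5] at h
    filter_upwards [h, eventually_gt_atTop 1] with T hT hT0
    have hT1 : (0 : ℝ) < T := by linarith
    rw [one_div T, ← div_eq_inv_mul, le_div_iff₀ hT1]
    refine le_trans (le_of_eq ?_) hT
    ring
  · obtain ⟨B, hB, h⟩ := Pool.Agent.TH535.masterNX (k : ℝ) hk0 j q _ hA _ hc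
    simp only [e4, e5] at h
    refine ⟨B, hB, ?_⟩
    filter_upwards [h, eventually_gt_atTop 1] with T hT hT0 U hU
    have hU0 : 0 < U := lt_of_lt_of_le (Real.rpow_pos_of_pos (Real.log_pos hT0) _) hU
    rw [one_div U, ← div_eq_inv_mul, le_div_iff₀ hU0]
    refine le_trans (le_of_eq ?_) (hT U hU)
    ring
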